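import Pool.Agent.J6H68.Nut.Stm

/-!
# Orders of regular nut graphs of even degree: module STEP2
-/

set_option autoImplicit false
set_option linter.unusedSectionVars false
set_option linter.unusedVariables false

namespace Pool.Agent.J6H19.Nut

open Finset Pool.Agent.J6H28.Nut Pool.Agent.J6H68.Nut

section

variable {V : Type} [Fintype V] [DecidableEq V]

theorem row4_inl {R : Type} [CommRing R] (S : V → V → ℤ) (hs : ∀ i j, S i j = S j i) (e f : V)
    (hef : e ≠ f) (h1 : S e f = 1) (g : V ⊕ Fin 4 → R) (i : V) :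
    ∑ q, ((ins4 S e f (.inl i) q : ℤ) : R) * g q = ∑ j, (S i j : R) * g (.inl j) +
      (if i = e then g (.inr 0) - g (.inl f) else 0) +
      (if i = f then g (.inr 3) - g (.inl e) else 0) := by
  rw [Fintype.sum_sum_type, Fin.sum_univ_four]
  have h2 : ∀ j, ((ins4 S e f (.inl i) (.inl j) : ℤ) : R) * g (.inl j) =
      (S i j : R) * g (.inl j) + ((if j = f then (if i = e then - g (.inl f) else 0) else 0) +
        (if j = e then (if i = f then - g (.inl e) else 0) else 0)) := by
    intro j
    have h1' : S f e = 1 := by rw [hs]; exact h1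
    simp only [ins4]
    by_cases i1 : i = e
    · subst i1
      simp only [hef, true_and, false_and, or_false, if_true, if_false]
      by_cases j1 : j = f
      · subst j1
        simp [h1, hef.symm]
      · simp [j1]
    · by_cases i2 : i = f
      · subst i2
        simp only [i1, true_and, false_and, false_or, if_true, if_false]
        by_cases j1 : j = e
        · subst j1
          simp [h1']
        · simp [j1]
      · simp [i1, i2]
  rw [Finset.sum_congr rfl fun j _ => h2 j, Finset.sum_add_distrib, Finset.sum_add_distrib]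
  simp only [Finset.sum_ite_eq', Finset.mem_univ, if_true, ins4]
  by_cases i1 : i = e
  · subst i1
    simp [hef]
    ring
  · by_cases i2 : i = f
    · subst i2
      simp [i1]
      ring
    · simp [i1, i2]

theorem row4_inr0 {R : Type} [CommRing R] (S : V → V → ℤ) (e f : V)
    (g : V ⊕ Fin 4 → R) :
    ∑ q, ((ins4 S e f (.inr 0) q : ℤ) : R) * g q = g (.inl e) + g (.inr 1) := by
  rw [Fintype.sum_sum_type, Fin.sum_univ_four]
  simp [ins4]

theorem row4_inr1 {R : Type} [CommRing R] (S : V → V → ℤ) (e f : V)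
    (g : V ⊕ Fin 4 → R) :
    ∑ q, ((ins4 S e f (.inr 1) q : ℤ) : R) * g q = g (.inr 0) + g (.inr 2) := by
  rw [Fintype.sum_sum_type, Fin.sum_univ_four]
  simp [ins4]

theorem row4_inr2 {R : Type} [CommRing R] (S : V → V → ℤ) (e f : V)
    (g : V ⊕ Fin 4 → R) :
    ∑ q, ((ins4 S e f (.inr 2) q : ℤ) : R) * g q = g (.inr 1) + g (.inr 3) := by
  rw [Fintype.sum_sum_type, Fin.sum_univ_four]
  simp [ins4]

theorem row4_inr3 {R : Type} [CommRing R] (S : V → V → ℤ) (e f : V)
    (g : V ⊕ Fin 4 → R) :
    ∑ q, ((ins4 S e f (.inr 3) q : ℤ) : R) * g q = g (.inl f) + g (.inr 2) := by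
  rw [Fintype.sum_sum_type, Fin.sum_univ_four]
  simp [ins4]

/-- the matrix `N = S² - 2 E` -/
def NN (S E : V → V → ℤ) (i j : V) : ℤ := S i j ^ 2 - 2 * E i j

theorem nn_inl (S E : V → V → ℤ) (hs : ∀ i j, S i j = S j i) (he : ∀ i j, E i j = E j i) (e f : V)
    (hef : e ≠ f) (h1 : S e f = 1) (h2 : E e f = 1) (g : V ⊕ Fin 4 → ℤ) (i : V) :
    ∑ q, (ins4 S e f (.inl i) q ^ 2 - 2 * insE E e f (.inl i) q) * g q =
      ∑ j, (S i j ^ 2 - 2 * E i j) * g (.inl j) +
      (if i = e then g (.inl f) - g (.inr 0) else 0) +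
      (if i = f then g (.inl e) - g (.inr 3) else 0) := by
  rw [Fintype.sum_sum_type, Fin.sum_univ_four]
  have h3 : ∀ j, (ins4 S e f (.inl i) (.inl j) ^ 2 - 2 * insE E e f (.inl i) (.inl j)) *
      g (.inl j) = (S i j ^ 2 - 2 * E i j) * g (.inl j) +
        ((if j = f then (if i = e then g (.inl f) else 0) else 0) +
        (if j = e then (if i = f then g (.inl e) else 0) else 0)) := by
    intro j
    have h1' : S f e = 1 := by rw [hs]; exact h1
    have h2' : E f e = 1 := by rw [he]; exact h2
    simp only [ins4, insE]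
    by_cases i1 : i = e
    · subst i1
      simp only [hef, true_and, false_and, or_false, if_true, if_false]
      by_cases j1 : j = f
      · subst j1
        simp only [if_true, h1, h2, hef.symm, if_false]
        ring
      · simp [j1]
    · by_cases i2 : i = f
      · subst i2
        simp only [i1, true_and, false_and, false_or, if_true, if_false]
        by_cases j1 : j = e
        · subst j1
          simp only [if_true, h1', h2', hef, if_false]
          simp
        · simp [j1]
      · simp [i1, i2]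
  rw [Finset.sum_congr rfl fun j _ => h3 j, Finset.sum_add_distrib, Finset.sum_add_distrib]
  simp only [Finset.sum_ite_eq', Finset.mem_univ, if_true, ins4, insE]
  by_cases i1 : i = e
  · subst i1
    simp [hef]
    ring
  · by_cases i2 : i = f
    · subst i2
      simp [i1]
      ring
    · simp [i1, i2]

theorem nn_inr0 (S E : V → V → ℤ) (e f : V) (g : V ⊕ Fin 4 → ℤ) :
    ∑ q, (ins4 S e f (.inr 0) q ^ 2 - 2 * insE E e f (.inr 0) q) * g q =
      - g (.inl e) - 2 * g (.inr 0) - g (.inr 1) := by
  rw [Fintype.sum_sum_type, Fin.sum_univ_four]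
  have h3 : ∀ j, (ins4 S e f (.inr 0) (.inl j) ^ 2 - 2 * insE E e f (.inr 0) (.inl j)) *
      g (.inl j) = if j = e then - g (.inl e) else 0 := by
    intro j
    by_cases j1 : j = e
    · subst j1
      simp [ins4, insE]
    · simp [ins4, insE, j1]
  rw [Finset.sum_congr rfl fun j _ => h3 j]
  simp [ins4, insE]
  ring

theorem nn_inr1 (S E : V → V → ℤ) (e f : V) (g : V ⊕ Fin 4 → ℤ) :
    ∑ q, (ins4 S e f (.inr 1) q ^ 2 - 2 * insE E e f (.inr 1) q) * g q =
      - g (.inr 0) - 2 * g (.inr 1) - g (.inr 2) := by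
  rw [Fintype.sum_sum_type, Fin.sum_univ_four]
  simp [ins4, insE]
  ring

theorem nn_inr2 (S E : V → V → ℤ) (e f : V) (g : V ⊕ Fin 4 → ℤ) :
    ∑ q, (ins4 S e f (.inr 2) q ^ 2 - 2 * insE E e f (.inr 2) q) * g q =
      - g (.inr 1) - 2 * g (.inr 2) - g (.inr 3) := by
  rw [Fintype.sum_sum_type, Fin.sum_univ_four]
  simp [ins4, insE]
  ring

theorem nn_inr3 (S E : V → V → ℤ) (e f : V) (g : V ⊕ Fin 4 → ℤ) :
    ∑ q, (ins4 S e f (.inr 3) q ^ 2 - 2 * insE E e f (.inr 3) q) * g q =
      - g (.inl f) - 2 * g (.inr 3) - g (.inr 2) := by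
  rw [Fintype.sum_sum_type, Fin.sum_univ_four]
  have h3 : ∀ j, (ins4 S e f (.inr 3) (.inl j) ^ 2 - 2 * insE E e f (.inr 3) (.inl j)) *
      g (.inl j) = if j = f then - g (.inl f) else 0 := by
    intro j
    by_cases j1 : j = f
    · subst j1
      simp [ins4, insE]
    · simp [ins4, insE, j1]
  rw [Finset.sum_congr rfl fun j _ => h3 j]
  simp [ins4, insE]
  ring

theorem x4_inl {R : Type} (g : V → R) (b0 b1 b2 b3 : R) (i : V) :
    ext4 g b0 b1 b2 b3 (.inl i) = g i := rfl

theorem x4_0 {R : Type} (g : V → R) (b0 b1 b2 b3 : R) : ext4 g b0 b1 b2 b3 (.inr 0) = b0 := by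
  simp [ext4]

theorem x4_1 {R : Type} (g : V → R) (b0 b1 b2 b3 : R) : ext4 g b0 b1 b2 b3 (.inr 1) = b1 := by
  simp [ext4]

theorem x4_2 {R : Type} (g : V → R) (b0 b1 b2 b3 : R) : ext4 g b0 b1 b2 b3 (.inr 2) = b2 := by
  simp [ext4]

theorem x4_3 {R : Type} (g : V → R) (b0 b1 b2 b3 : R) : ext4 g b0 b1 b2 b3 (.inr 3) = b3 := by
  simp [ext4]

theorem rel_npos4 {m p lo hi : ℕ} {pos : V → ℕ} {i j : V} (h : rel m p lo hi (pos i) (pos j)) :
    rel (m + 4) p lo hi (npos4 p pos (.inl i)) (npos4 p pos (.inl j)) := by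
  unfold rel at *
  simp only [npos4]
  split_ifs <;> omega

/-- the rows modulo `2` of the extension -/
theorem ext4_row (S : V → V → ℤ) (hs : ∀ i j, S i j = S j i) (e f : V)
    (hef : e ≠ f) (h1 : S e f = 1) (g : V → ZMod 2) (q : V ⊕ Fin 4) :
    ∑ r, ((ins4 S e f q r : ℤ) : ZMod 2) * ext4 g (g f) (g e) (g f) (g e) r =
      match q with | .inl i => ∑ j, (S i j : ZMod 2) * g j | .inr _ => 0 := by
  have e2 : ∀ x : ZMod 2, x + x = 0 := fun x => CharTwo.add_self_eq_zero x
  rcases q with i | t
  · rw [row4_inl S hs e f hef h1]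
    simp [ext4]
  · fin_cases t
    · simp only [Fin.zero_eta, Fin.isValue]
      rw [row4_inr0]
      simp [ext4, e2]
    · simp only [Fin.mk_one, Fin.isValue]
      rw [row4_inr1]
      simp [ext4, e2]
    · simp only [Fin.reduceFinMk, Fin.isValue]
      rw [row4_inr2 S e f]
      simp [ext4, e2]
    · simp only [Fin.reduceFinMk, Fin.isValue]
      rw [row4_inr3 S e f]
      simp [ext4, e2]

theorem ind4_inl (A : V) (i : V) : ind (Sum.inl A : V ⊕ Fin 4) (Sum.inl i) = ind A i := by
  simp [ind]

theorem ind4_inr (A : V) (t : Fin 4) : ind (Sum.inl A : V ⊕ Fin 4) (Sum.inr t) = 0 := by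
  simp [ind]

end

theorem st_step2 : StStep2 := by
  intro T m p V _ _ S E pos a e f g h hc z x0 u A B C D hK hP hz hG
  have hef : e ≠ f := by
    intro he
    have h1 := hc.pe
    have h2 := hc.pf
    rw [he] at h1
    omega
  have hEef : E e f = 1 := hc.se e f (by rw [hc.Sef]; exact one_ne_zero)
  have e2 : ∀ x : ZMod 2, x + x = 0 := fun x => CharTwo.add_self_eq_zero x
  have e3 : ∀ x y : ZMod 2, x + y = 0 → x = y := by decide
  refine ⟨⟨?_, ?_⟩, ⟨?_, ?_, ?_⟩, ?_⟩
  · intro v hv
    have r0 := hv (.inr 0)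
    have r1 := hv (.inr 1)
    have r2 := hv (.inr 2)
    have r3 := hv (.inr 3)
    rw [row4_inr0] at r0
    rw [row4_inr1] at r1
    rw [row4_inr2 S e f] at r2
    rw [row4_inr3 S e f] at r3
    have q1 : v (.inr 1) = v (.inl e) := (e3 _ _ r0).symm
    have q2 : v (.inr 2) = v (.inl f) := (e3 _ _ r3).symm
    have q0 : v (.inr 0) = v (.inl f) := (e3 _ _ r1).trans q2
    have q3 : v (.inr 3) = v (.inl e) := (e3 _ _ r2).symm.trans q1
    have k1 : ∀ i, ∑ j, (S i j : ZMod 2) * v (.inl j) = 0 := by
      intro i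
      have := hv (.inl i)
      rw [row4_inl S hc.symm e f hef hc.Sef, q0, q3] at this
      simpa using this
    have key : ∀ w : V → ZMod 2, (fun j => v (.inl j)) = w →
        v = ext4 w (w f) (w e) (w f) (w e) := by
      intro w hw
      have he : v (.inl e) = w e := congrFun hw e
      have hf : v (.inl f) = w f := congrFun hw f
      funext q
      rcases q with i | t
      · exact congrFun hw i
      · fin_cases t
        · simp [ext4, q0, hf]
        · simp [ext4, q1, he]
        · simp [ext4, q2, hf]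
        · simp [ext4, q3, he]
    rcases hK.1 (fun j => v (.inl j)) k1 with h3 | h3 | h3 | h3
    · left
      rw [key _ h3]
      funext q
      rcases q with i | t
      · rfl
      · fin_cases t <;> simp [ext4]
    · right; left
      rw [key _ h3]
      funext q
      rcases q with i | t
      · rfl
      · fin_cases t <;> simp [ext4]
    · right; right; left
      exact key _ h3
    · right; right; right
      rw [key _ h3]
      funext q
      rcases q with i | t
      · rfl
      · fin_cases t <;> simp [ext4]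
  · rw [Fintype.sum_sum_type, Fin.sum_univ_four]
    have h0 : ∑ i, ext4 z (z f) (z e) (z f) (z e) (Sum.inl i) = 0 := hK.2
    rw [h0]
    simp only [ext4]
    have h1 : (z f + z e) + (z f + z e) = 0 := e2 _
    simp
    linear_combination h1
  · obtain ⟨h1, -, -⟩ := hP
    intro q
    have he := h1 e
    have hf := h1 f
    have t2 : ∀ x y : ZMod 2, -x - 2 * y = x := by decide
    have t3 : ∀ x y : ZMod 2, 2 * x + 3 * y = y := by decide
    have t4 : ∀ x y : ZMod 2, -3 * x - 4 * y = x := by decide
    rcases q with i | t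
    · exact h1 i
    · fin_cases t
      · simp [ext4, hf]
      · show ((-u e - 2 * u f : ℤ) : ZMod 2) = z e
        push_cast
        rw [he, hf]
        exact t2 _ _
      · show ((2 * u e + 3 * u f : ℤ) : ZMod 2) = z f
        push_cast
        rw [he, hf]
        exact t3 _ _
      · show ((-3 * u e - 4 * u f : ℤ) : ZMod 2) = z e
        push_cast
        rw [he, hf]
        exact t4 _ _
  · obtain ⟨-, h2, -⟩ := hP
    intro q
    rcases q with i | t
    · rw [nn_inl S E hc.symm hc.esymm e f hef hc.Sef hEef]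
      obtain ⟨c, hc'⟩ := h2 i
      simp only [x4_inl, x4_0, x4_3]
      rw [hc']
      split_ifs with i1 i2 i2
      · exact absurd (i1.symm.trans i2) hef
      · exact ⟨c, by simp⟩
      · exact ⟨c + u e + u f, by simp; ring⟩
      · exact ⟨c, by ring⟩
    · fin_cases t
      · simp only [Fin.zero_eta, Fin.isValue]
        rw [nn_inr0, x4_inl, x4_0, x4_1]
        exact ⟨0, by ring⟩
      · simp only [Fin.mk_one, Fin.isValue]
        rw [nn_inr1, x4_0, x4_1, x4_2]
        exact ⟨0, by ring⟩
      · simp only [Fin.reduceFinMk, Fin.isValue]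
        rw [nn_inr2, x4_1, x4_2, x4_3]
        exact ⟨0, by ring⟩
      · simp only [Fin.reduceFinMk, Fin.isValue]
        rw [nn_inr3, x4_inl, x4_2, x4_3]
        exact ⟨u e + u f, by ring⟩
  · obtain ⟨h1, h2, h3⟩ := hP
    obtain ⟨c, hc'⟩ := h3
    have hue : (u e : ZMod 2) + u f = 0 := by
      rw [h1 e, h1 f, hz]; exact e2 _
    obtain ⟨k, hk⟩ : (2 : ℤ) ∣ u e + u f := by
      have := (ZMod.intCast_zmod_eq_zero_iff_dvd (u e + u f) 2).1 (by push_cast; exact hue)
      exact_mod_cast this
    rw [Fintype.sum_sum_type, Fin.sum_univ_four]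
    have e1 : ∀ i, ext4 u (u f) (-u e - 2 * u f) (2 * u e + 3 * u f) (-3 * u e - 4 * u f)
        (Sum.inl i) * ∑ j, (ins4 S e f (Sum.inl i) j ^ 2 - 2 * insE E e f (Sum.inl i) j) *
          ext4 u (u f) (-u e - 2 * u f) (2 * u e + 3 * u f) (-3 * u e - 4 * u f) j =
        u i * ∑ j, (S i j ^ 2 - 2 * E i j) * u j +
          (if i = f then u f * (4 * (u e + u f)) else 0) := by
      intro i
      rw [nn_inl S E hc.symm hc.esymm e f hef hc.Sef hEef]
      simp only [x4_inl, x4_0, x4_3]
      split_ifs with i1 i2 i2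
      · exact absurd (i1.symm.trans i2) hef
      · simp
      · subst i2
        simp
        ring
      · simp
    rw [Finset.sum_congr rfl fun i _ => e1 i, Finset.sum_add_distrib]
    rw [nn_inr0, nn_inr1, nn_inr2, nn_inr3]
    simp only [Finset.sum_ite_eq', Finset.mem_univ, if_true, x4_inl, x4_0, x4_1, x4_2, x4_3]
    have h4 : ∑ i, u i * ∑ j, (S i j ^ 2 - 2 * E i j) * u j = 8 * c + 4 := by linarith
    rw [h4]
    refine ⟨c - 6 * k ^ 2, ?_⟩
    have h5 : u e = 2 * k - u f := by linarith
    rw [h5]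
    ring
  · obtain ⟨h1, h2, h3, h4, h5, h6, h7, h8, h9, h10, h11, h12⟩ := hG
    refine ⟨?_, h2, h3, h4, ?_, ?_, rel_npos4 h7, rel_npos4 h8, rel_npos4 h9, rel_npos4 h10,
      ?_, ?_⟩
    · intro q
      rw [ext4_row S hc.symm e f hef hc.Sef x0 q]
      rcases q with i | t
      · simp only [ind4_inl]
        exact h1 i
      · simp only [ind4_inr]
        simp
    · simpa using h5
    · simpa using h6
    · simp only [insE]
      split_ifs
      · rfl
      · exact h11
    · simp only [insE]
      split_ifs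
      · rfl
      · exact h12

end Pool.Agent.J6H19.Nut
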